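import Pool.Agent.N848.LT.Stm

set_option autoImplicit false

/-!
# Units modulo squares in a totally real cubic field (LT/EXU)
-/

namespace Pool.Agent.N327.LT

open NumberField NumberField.Units NumberField.InfinitePlace Module

/-- a map to a set of eight elements which separates the classes modulo squares -/
theorem exists_T (k : Type) [Field k] [NumberField k] (h3 : finrank ℚ k = 3)
    (hr : IsTotallyReal k) : ∃ (C : Type) (_ : Fintype C) (T : (𝓞 k)ˣ → C), Fintype.card C = 8 ∧
      ∀ x y, T x = T y → ∃ w : (𝓞 k)ˣ, x = y * w ^ 2 := by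
  classical
  have hrank : rank k = 2 := by
    have h1 := IsTotallyReal.finrank (K := k)
    have h2 := card_eq_nrRealPlaces_add_nrComplexPlaces (K := k)
    have h4 := IsTotallyReal.nrComplexPlaces_eq_zero (K := k)
    unfold rank
    omega
  have hodd : Odd (finrank ℚ k) := by rw [h3]; decide
  choose g hg _ using fun x : (𝓞 k)ˣ => exist_unique_eq_mul_prod k x
  refine ⟨Bool × (Fin (rank k) → ZMod 2), inferInstance,
    fun x => (decide (((g x).1 : (𝓞 k)ˣ) = 1), fun i => ((g x).2 i : ZMod 2)), ?_, ?_⟩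
  · rw [Fintype.card_prod, Fintype.card_bool, Fintype.card_fun, ZMod.card, Fintype.card_fin, hrank]
    norm_num
  · intro x y hxy
    rw [Prod.mk.injEq] at hxy
    obtain ⟨h5, h6⟩ := hxy
    rw [decide_eq_decide] at h5
    have h7 : ((g x).1 : (𝓞 k)ˣ) = ((g y).1 : (𝓞 k)ˣ) := by
      rcases torsion_eq_one_or_neg_one_of_odd_finrank hodd (g x).1 with h | h
      · rw [h, h5.1 h]
      · rcases torsion_eq_one_or_neg_one_of_odd_finrank hodd (g y).1 with h' | h'
        · rw [h', h5.2 h']
        · rw [h, h']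
    have h8 : ∀ i, ∃ m : ℤ, (g x).2 i = (g y).2 i + 2 * m := by
      intro i
      have h9 : ((g x).2 i : ZMod 2) = ((g y).2 i : ZMod 2) := congrFun h6 i
      rw [ZMod.intCast_eq_intCast_iff_dvd_sub] at h9
      obtain ⟨m, hm⟩ := h9
      refine ⟨-m, ?_⟩
      push_cast at hm
      linarith
    choose m hm using h8
    refine ⟨∏ i, fundSystem k i ^ m i, ?_⟩
    rw [hg x, hg y, h7, mul_assoc, ← Finset.prod_pow, ← Finset.prod_mul_distrib]
    congr 1
    apply Finset.prod_congr rfl
    intro i _
    rw [hm i, zpow_add, mul_comm (2 : ℤ) (m i), zpow_mul]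
    rfl

theorem t_EXU : Pool.Agent.N848.LT.S_EXU := by
  intro k _ _ h3 hr e he η
  classical
  obtain ⟨C, _, T, hC, hT⟩ := exists_T k h3 hr
  set P : (Fin 3 → Fin 2) → (𝓞 k)ˣ := fun a => ∏ i, e i ^ (a i : ℕ) with hP
  have hinj : Function.Injective (fun a => T (P a)) := by
    intro a b hab
    by_contra hne
    obtain ⟨w, hw⟩ := hT _ _ hab
    refine he (a + b) ?_ ?_
    · intro h0
      apply hne
      funext i
      have h1 := congrFun h0 i
      simp only [Pi.add_apply, Pi.zero_apply] at h1
      revert h1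
      generalize a i = x
      generalize b i = y
      revert x y
      decide
    · have h2 : ∀ i, ∃ n : ℕ, ((a i : Fin 2) : ℕ) + (b i : ℕ) = ((a + b) i : ℕ) + 2 * n := by
        intro i
        simp only [Pi.add_apply]
        generalize a i = x
        generalize b i = y
        have : ∀ x y : Fin 2, (x : ℕ) + (y : ℕ) = ((x + y : Fin 2) : ℕ) + 2 * (((x : ℕ) + y) / 2) := by
          decide
        exact ⟨_, this x y⟩
      choose n hn using h2
      have h4 : P a * P b = P (a + b) * (∏ i, e i ^ n i) ^ 2 := by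
        simp only [hP]
        rw [← Finset.prod_pow, ← Finset.prod_mul_distrib, ← Finset.prod_mul_distrib]
        apply Finset.prod_congr rfl
        intro i _
        rw [← pow_add, hn i, pow_add, mul_comm 2 (n i), pow_mul]
      rw [hw] at h4
      refine ⟨P b * w * (∏ i, e i ^ n i)⁻¹, ?_⟩
      have h5 : P (a + b) = (P b * w ^ 2 * P b) * ((∏ i, e i ^ n i) ^ 2)⁻¹ :=
        eq_mul_inv_of_mul_eq h4.symm
      change P (a + b) = _
      rw [h5, ← inv_pow, pow_two, pow_two]
      ac_rfl
  have hbij : Function.Bijective (fun a => T (P a)) := by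
    rw [Fintype.bijective_iff_injective_and_card]
    refine ⟨hinj, ?_⟩
    rw [hC]
    simp
  obtain ⟨a, ha⟩ := hbij.2 (T η)
  obtain ⟨w, hw⟩ := hT η (P a) ha.symm
  exact ⟨a, w, hw⟩

end Pool.Agent.N327.LT
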